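import Pool.Agent.MWFE.StmtsA

set_option autoImplicit false

namespace Pool.Agent.MWFE.H15

open Pool.Agent.MWFE
open Pool.Agent.Helper14_MV Pool.Agent.Helper2_MV Pool.Agent.MVD

/-- a power of the letter `0` is not changed if `2` is replaced -/
lemma fm_rep (N : ℕ) :
    (List.replicate N 0).flatMap (fun i => if i = 2 then [3] else [i]) = List.replicate N 0 := by
  induction N with
  | zero => rfl
  | succ N ih => rw [List.replicate_succ, List.flatMap_cons, ih]; simp

/-- **LQG** -/
theorem lqg (hl : LqiStmt) : LqgStmt := by
  intro n β hz N g e hN hge h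
  have h1 := RR.sub (fun i => if i = 2 then [3] else [i]) h
  have h2 := RR.append h1 (RR.refl (β := β) [2, 3])
  rw [List.flatMap_cons, List.flatMap_append, List.flatMap_cons, fm_rep, fm_rep, fm_rep] at h2
  simp only [if_true] at h2
  have e1 : cw 0 N = [3] ++ List.replicate N 0 ++ [2, 3] := by simp [cw]
  have e2 : cw g e = (List.replicate g 0 ++ ([3] ++ List.replicate e 0)) ++ [2, 3] := by
    simp [cw, List.append_assoc]
  rw [← e1, ← e2] at h2
  exact hl n β hz 0 N g e (by omega) hge h2

end Pool.Agent.MWFE.H15
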